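import Pool.Agent.H68.Bg4

namespace Pool.Agent.Results.MP_de0ecf_co.Diam

open Pool.Agent.H68.Bg

theorem result {B W : Type} [Group W] {M : CoxeterMatrix B} (cs : CoxeterSystem M W)
    (_hsl : ∀ s t, s ≠ t → M s t = 2 ∨ M s t = 3)
    (htri : ∀ s t u, s ≠ t → t ≠ u → s ≠ u → ¬ (M s t = 3 ∧ M t u = 3 ∧ M s u = 3))
    (a : List B) (ha : cs.IsReduced a) :
    (shadows M a).Finite ∧ (graph M a).ediam = ((shadows M a).ncard : ℕ∞) ∧
      (graph M a).diam = (shadows M a).ncard := by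
  obtain ⟨C, f, h1, -, h3⟩ := main cs htri ha
  rw [h1, Set.ncard_coe_finset, SimpleGraph.diam, h3]
  exact ⟨C.finite_toSet, rfl, rfl⟩

end Pool.Agent.Results.MP_de0ecf_co.Diam
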